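import Pool.Agent.helper20.HP.Defs3
import Pool.Agent.helper20.HP.S2

/-!
Module F0 of MP_5ae64c_pr: shifts of the profile function by multiples of a fixed integer.
-/

open scoped BigOperators Topology
open Filter MeasureTheory

namespace Pool.Agent.helper20.HP

/-- statement of `kap_pos` (module P4) -/
def F0_Kap : Prop := ∀ (V : Type) [Fintype V] [DecidableEq V] (K : HW V) (θ : ℝ) (h : ℕ),
  Par K θ h → ∀ (o : V) (B0 v Mc : ℕ), 1 ≤ v → 16 * θ ^ 2 * v ≤ (B0 : ℝ) + 1 →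
    16 * θ ^ 2 ≤ (Mc : ℝ) + 1 →
    48 * θ ^ 2 * ((B0 : ℝ) + 4 * h + 1) ^ 2 ≤ (Fintype.card V : ℝ) →
    1 / (16 * θ ^ 2) ≤ ∑ j ∈ Finset.Icc 1 Mc, kap K o (2 * h) (j * v) B0

/-- asymptotics -/
theorem F0_asym (α c b η : ℝ) (hα : 0 < α) (hb : 0 < b) (hη : 0 < η) :
    ∃ n0 : ℕ, ∀ n : ℕ, n0 ≤ n → 1 ≤ n ∧ c ≤ (n : ℝ) ^ (α / 8) ∧
      c * (n : ℝ) ^ 2 * Real.exp (-(b * (n : ℝ) ^ (α / 8))) ≤ η := by
  have hα8 : 0 < α / 8 := by positivity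
  have h1 : Tendsto (fun n : ℕ => (n : ℝ) ^ (α / 8)) atTop atTop :=
    (tendsto_rpow_atTop hα8).comp tendsto_natCast_atTop_atTop
  have h2 : Tendsto (fun y : ℝ => c * (y ^ (16 / α) * Real.exp (-b * y))) atTop (𝓝 0) := by
    have := (tendsto_rpow_mul_exp_neg_mul_atTop_nhds_zero (16 / α) b hb).const_mul c
    simpa using this
  have h3 := h2.comp h1
  have e3 : ∀ᶠ n : ℕ in atTop, c * (((n : ℝ) ^ (α / 8)) ^ (16 / α)
      * Real.exp (-b * (n : ℝ) ^ (α / 8))) < η := by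
    have := h3.eventually (gt_mem_nhds hη)
    simpa [Function.comp_def] using this
  have e2 : ∀ᶠ n : ℕ in atTop, c ≤ (n : ℝ) ^ (α / 8) := h1.eventually_ge_atTop c
  have e1 : ∀ᶠ n : ℕ in atTop, 1 ≤ n := eventually_ge_atTop 1
  obtain ⟨n0, hn0⟩ := Filter.eventually_atTop.1 (e1.and (e2.and e3))
  refine ⟨n0, fun n hn => ?_⟩
  obtain ⟨a1, a2, a3⟩ := hn0 n hn
  refine ⟨a1, a2, ?_⟩
  have hpow : ((n : ℝ) ^ (α / 8)) ^ (16 / α) = (n : ℝ) ^ 2 := by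
    rw [← Real.rpow_mul (Nat.cast_nonneg n)]
    have : α / 8 * (16 / α) = 2 := by field_simp; norm_num
    rw [this]
    norm_num
  rw [hpow] at a3
  have : -(b * (n : ℝ) ^ (α / 8)) = -b * (n : ℝ) ^ (α / 8) := by ring
  rw [this, mul_assoc]
  exact a3.le

/-- numbers: x T = sqrt n -/
theorem F0_num (n : ℕ) (α : ℝ) (hα : 0 < α) (hα' : α ≤ 1 / 4) (hn : 1 ≤ n) :
    1 ≤ (n : ℝ) ^ (1 / 2 - α / 8) ∧ 1 ≤ (n : ℝ) ^ (α / 8) ∧
    (n : ℝ) ^ (1 / 2 - α / 8) * (n : ℝ) ^ (α / 8) ≤ 2 * (Nat.sqrt n : ℝ) ∧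
    ((n : ℝ) ^ (1 / 2 - α / 8) * (n : ℝ) ^ (α / 8)) ^ 2 = n ∧
    (n : ℝ) ^ (1 / 2 - α) ≤ (n : ℝ) ^ (1 / 2 - α / 8) ∧ 1 ≤ (Nat.sqrt n : ℝ) := by
  have hn1 : (1 : ℝ) ≤ n := by exact_mod_cast hn
  have hn0 : (0 : ℝ) < n := by linarith
  have hx : (n : ℝ) ^ (1 / 2 - α / 8) * (n : ℝ) ^ (α / 8) = (n : ℝ) ^ (1 / 2 : ℝ) := by
    rw [← Real.rpow_add hn0]; congr 1; ring
  have hsq : ((n : ℝ) ^ (1 / 2 : ℝ)) ^ 2 = n := by
    rw [← Real.sqrt_eq_rpow, Real.sq_sqrt hn0.le]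
  have hL1 : 1 ≤ Nat.sqrt n := by
    rw [Nat.le_sqrt]; simpa using hn
  have hL1' : (1 : ℝ) ≤ (Nat.sqrt n : ℝ) := by exact_mod_cast hL1
  have hlt : (n : ℝ) < ((Nat.sqrt n : ℝ) + 1) ^ 2 := by
    have := Nat.lt_succ_sqrt n
    have h2 : ((n : ℕ) : ℝ) < ((Nat.succ (Nat.sqrt n) * Nat.succ (Nat.sqrt n) : ℕ) : ℝ) := by
      exact_mod_cast this
    push_cast at h2
    nlinarith [h2]
  have hle : (n : ℝ) ^ (1 / 2 : ℝ) ≤ 2 * (Nat.sqrt n : ℝ) := by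
    rw [← Real.sqrt_eq_rpow]
    refine Real.sqrt_le_iff.2 ⟨by positivity, ?_⟩
    nlinarith
  refine ⟨Real.one_le_rpow hn1 (by linarith), Real.one_le_rpow hn1 (by linarith), ?_, ?_, ?_, hL1'⟩
  · rw [hx]; exact hle
  · rw [hx, hsq]
  · exact Real.rpow_le_rpow_of_exponent_le hn1 (by linarith)

section
variable {V : Type} [Fintype V] [DecidableEq V] {K : HW V} {θ : ℝ} {h : ℕ}

/-- passage to the limit in the number of steps -/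
theorem F0_limit (Γ : List V) (hΓ : Γ.Nodup) (r g U : ℕ) (κ E : ℝ) (hκ : 0 < κ)
    (hex : ∀ N : ℕ, κ * PhiN K Γ N r ≤ κ * PhiN K Γ (N + U) (r + g) + E ∧
      κ * PhiN K Γ N (r + g) ≤ κ * PhiN K Γ N r + E) :
    |Phi K Γ r - Phi K Γ (r + g)| ≤ E / κ := by
  have t1 := PhiN_tendsto K Γ hΓ r
  have t2 := PhiN_tendsto K Γ hΓ (r + g)
  have t3 : Tendsto (fun N => PhiN K Γ (N + U) (r + g)) atTop (𝓝 (Phi K Γ (r + g))) :=
    t2.comp (tendsto_add_atTop_nat U)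
  have a1 : κ * Phi K Γ r ≤ κ * Phi K Γ (r + g) + E :=
    le_of_tendsto_of_tendsto' (t1.const_mul κ) ((t3.const_mul κ).add_const E) (fun N => (hex N).1)
  have a2 : κ * Phi K Γ (r + g) ≤ κ * Phi K Γ r + E :=
    le_of_tendsto_of_tendsto' (t2.const_mul κ) ((t1.const_mul κ).add_const E) (fun N => (hex N).2)
  rw [abs_le]
  constructor
  · rw [neg_le, le_div_iff₀ hκ]
    nlinarith
  · rw [le_div_iff₀ hκ]
    nlinarith

/-- iteration of a bound for one shift -/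
theorem F0_iter (F : ℕ → ℝ) (r g m : ℕ) (e : ℝ)
    (hs : ∀ i < m, |F (r + i * g) - F (r + (i + 1) * g)| ≤ e) :
    |F r - F (r + m * g)| ≤ m * e := by
  induction m with
  | zero => simp
  | succ m ih =>
    have h1 := ih (fun i hi => hs i (by omega))
    have h2 := hs m (by omega)
    have h3 : |F r - F (r + (m + 1) * g)| ≤ |F r - F (r + m * g)|
        + |F (r + m * g) - F (r + (m + 1) * g)| := abs_sub_le _ _ _
    push_cast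
    linarith

end

theorem F0_ratio (Mc j : ℕ) (h1 : 1 ≤ j) (h2 : j ≤ Mc) :
    ∃ m : ℕ, m * j = Nat.factorial Mc ∧ m ≤ Nat.factorial Mc := by
  obtain ⟨m, hm⟩ := Nat.dvd_factorial (by omega : 0 < j) h2
  refine ⟨m, by rw [hm]; ring, ?_⟩
  rw [hm]
  exact Nat.le_mul_of_pos_left m (by omega)

/-- choice of a good multiple -/
theorem F0_pick (Mc : ℕ) (hMc : 1 ≤ Mc) (f : ℕ → ℝ) (s : ℝ)
    (hs : s ≤ ∑ j ∈ Finset.Icc 1 Mc, f j) : ∃ j, 1 ≤ j ∧ j ≤ Mc ∧ s / Mc ≤ f j := by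
  have hM : (0 : ℝ) < Mc := by exact_mod_cast hMc
  have hne : (Finset.Icc 1 Mc).Nonempty := ⟨1, by simp [hMc]⟩
  have hsum : ∑ _j ∈ Finset.Icc 1 Mc, s / Mc ≤ ∑ j ∈ Finset.Icc 1 Mc, f j := by
    rw [Finset.sum_const, Nat.card_Icc, nsmul_eq_mul]
    simp only [Nat.add_sub_cancel]
    rw [mul_div_cancel₀ _ hM.ne']
    exact hs
  obtain ⟨j, hj, hj2⟩ := Finset.exists_le_of_sum_le hne hsum
  rw [Finset.mem_Icc] at hj
  exact ⟨j, hj.1, hj.2, hj2⟩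

theorem F0_a (θ x U h : ℝ) (hx : 1 ≤ x) (hh : h ≤ x) (hU : U ≤ 32 * θ ^ 2 * x + 1) :
    U + 4 * h + 1 ≤ (32 * θ ^ 2 + 6) * x := by
  have : (32 * θ ^ 2 + 6) * x = 32 * θ ^ 2 * x + 6 * x := by ring
  rw [this]; linarith

theorem F0_b (θ c1 x T S n : ℝ) (hT : 1 ≤ T) (hS0 : 0 ≤ S) (hS : S ≤ c1 * x)
    (h1 : 48 * θ ^ 2 * c1 ^ 2 ≤ T) (hn : (x * T) ^ 2 = n) : 48 * θ ^ 2 * S ^ 2 ≤ n := by
  have s2 : S ^ 2 ≤ (c1 * x) ^ 2 := pow_le_pow_left₀ hS0 hS 2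
  have hTT : T ≤ T * T := le_mul_of_one_le_left (by linarith) hT
  calc 48 * θ ^ 2 * S ^ 2 ≤ 48 * θ ^ 2 * (c1 * x) ^ 2 := by gcongr
    _ = (48 * θ ^ 2 * c1 ^ 2) * x ^ 2 := by ring
    _ ≤ T * x ^ 2 := by gcongr
    _ ≤ (T * T) * x ^ 2 := by gcongr
    _ = (x * T) ^ 2 := by ring
    _ = n := hn

theorem F0_c (x T n : ℝ) (hx : 1 ≤ x) (hT : 1 ≤ T) (hn : (x * T) ^ 2 = n) : x ≤ n := by
  have h0 : 0 ≤ x := by linarith
  calc x = x * 1 := by ring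
    _ ≤ x * x := by gcongr
    _ = (x * 1) ^ 2 := by ring
    _ ≤ (x * T) ^ 2 := by gcongr
    _ = n := hn

theorem F0_d (θ x v U : ℝ) (hv : v ≤ 2 * x) (hU : 32 * θ ^ 2 * x ≤ U) :
    16 * θ ^ 2 * v ≤ U + 1 := by
  have : 16 * θ ^ 2 * v ≤ 16 * θ ^ 2 * (2 * x) := by gcongr
  have h2 : 16 * θ ^ 2 * (2 * x) = 32 * θ ^ 2 * x := by ring
  linarith

theorem F0_e (h U D c1 x L δ M : ℝ) (hD : D = 4 * h + U) (hDc : D ≤ c1 * x)
    (hc : 32 * c1 * x ≤ 2 * L) (hδ : δ ≤ 1 / 8) (hL : 0 ≤ L) (hM : M ≤ δ * L) (hh : 0 ≤ h) :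
    4 * (2 * h + M + 2 * h + 2 * U) ≤ L := by
  have h1 : δ * L ≤ 1 / 8 * L := by gcongr
  have h2 : 32 * c1 * x = 32 * (c1 * x) := by ring
  rw [h2] at hc
  linarith

theorem F0_f (C η L D ε1 X δ ε δ0 κ0 : ℝ) (hC : 0 < C) (hδ0 : 0 < δ0) (hη : 0 < η)
    (hηdef : η = ε * κ0 / (3 * C * δ0)) (hL : 1 ≤ L) (hδη : δ ≤ η) (hε1η : ε1 ≤ η)
    (hD : D ≤ δ * L) (hX : X ≤ η) : C * (D + ε1 * L + X) ≤ ε / δ0 * L * κ0 := by
  have hL0 : 0 ≤ L := by linarith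
  have e1 : D + ε1 * L + X ≤ 3 * η * L := by
    have t1 : D ≤ η * L := hD.trans (by gcongr)
    have t2 : ε1 * L ≤ η * L := by gcongr
    have t3 : X ≤ η * L := hX.trans (le_mul_of_one_le_right hη.le hL)
    linarith
  calc C * (D + ε1 * L + X) ≤ C * (3 * η * L) := by gcongr
    _ = ε / δ0 * L * κ0 := by rw [hηdef]; field_simp

theorem F0_g (A L r R : ℝ) (hL : 0 ≤ L) (hr : r ≤ A * L) (hR : R ≤ r + 4 * L) :
    R ≤ (|A| + 4) * L := by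
  have h1 : A * L ≤ |A| * L := mul_le_mul_of_nonneg_right (le_abs_self A) hL
  have h2 : (|A| + 4) * L = |A| * L + 4 * L := by ring
  linarith

/-- the module statement from `kap_pos` -/
theorem shift_mult_of (hk : F0_Kap) (θ : ℝ) : ∃ δ0 : ℕ, 1 ≤ δ0 ∧ ∀ A α ε : ℝ, 0 < α → α ≤ 1 / 4 →
    0 < ε → ∃ n0 : ℕ,
    ∀ (V : Type) [Fintype V] [DecidableEq V] (K : HW V) (h : ℕ), Par K θ h → n0 ≤ Fintype.card V →
    (h : ℝ) ≤ (Fintype.card V : ℝ) ^ (1 / 2 - α) →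
    ∀ Γ : List V, Γ.Nodup → (Γ.length : ℝ) ≤ A * Nat.sqrt (Fintype.card V) →
    ∀ r v : ℕ, (r : ℝ) ≤ A * Nat.sqrt (Fintype.card V) → 1 ≤ v →
    ((δ0 * v : ℕ) : ℝ) ≤ 2 * (Fintype.card V : ℝ) ^ (1 / 2 - α / 8) →
    |Phi K Γ r - Phi K Γ (r + δ0 * v)| ≤ ε * Nat.sqrt (Fintype.card V) := by
  by_cases hθ : 1 ≤ θ
  swap
  · exact ⟨1, le_rfl, fun A α ε _ _ _ => ⟨0, fun V _ _ K h hP => absurd hP.one_le hθ⟩⟩
  obtain ⟨Mc, hMcdef⟩ : ∃ Mc : ℕ, Mc = ⌈16 * θ ^ 2⌉₊ := ⟨_, rfl⟩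
  have hθ2 : 1 ≤ θ ^ 2 := one_le_pow₀ hθ
  have hMcge : 16 * θ ^ 2 ≤ (Mc : ℝ) := by rw [hMcdef]; exact Nat.le_ceil _
  have hMc1 : 1 ≤ Mc := by
    have : (1 : ℝ) ≤ Mc := by linarith
    exact_mod_cast this
  refine ⟨Nat.factorial Mc, Nat.factorial_pos Mc, fun A α ε hα hα' hε => ?_⟩
  obtain ⟨δ0, hδ0def⟩ : ∃ δ0 : ℕ, δ0 = Nat.factorial Mc := ⟨_, rfl⟩
  rw [← hδ0def]
  have hδ0 : (0 : ℝ) < δ0 := by rw [hδ0def]; exact_mod_cast Nat.factorial_pos Mc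
  obtain ⟨C, hC, hex⟩ := exchange θ (|A| + 4)
  have hMcR : (0 : ℝ) < Mc := by exact_mod_cast hMc1
  obtain ⟨κ0, hκ0def⟩ : ∃ κ0 : ℝ, κ0 = 1 / (16 * θ ^ 2) / Mc := ⟨_, rfl⟩
  have hκ0 : 0 < κ0 := by rw [hκ0def]; positivity
  obtain ⟨η, hηdef⟩ : ∃ η : ℝ, η = ε * κ0 / (3 * C * δ0) := ⟨_, rfl⟩
  have hη : 0 < η := by rw [hηdef]; positivity
  obtain ⟨δ, hδdef⟩ : ∃ δ : ℝ, δ = min η (1 / 8) := ⟨_, rfl⟩
  have hδ : 0 < δ := by rw [hδdef]; positivity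
  have hδη : δ ≤ η := by rw [hδdef]; exact min_le_left _ _
  have hδ8 : δ ≤ 1 / 8 := by rw [hδdef]; exact min_le_right _ _
  obtain ⟨ε1, hε1def⟩ : ∃ ε1 : ℝ, ε1 = min η 1 := ⟨_, rfl⟩
  have hε1 : 0 < ε1 := by rw [hε1def]; positivity
  have hε1η : ε1 ≤ η := by rw [hε1def]; exact min_le_left _ _
  have hε11 : ε1 ≤ 1 := by rw [hε1def]; exact min_le_right _ _
  have hCZ : 0 < CZ θ := by unfold CZ; positivity
  obtain ⟨c1, hc1def⟩ : ∃ c1 : ℝ, c1 = 32 * θ ^ 2 + 6 := ⟨_, rfl⟩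
  have hc1 : 0 < c1 := by rw [hc1def]; positivity
  obtain ⟨b, hbdef⟩ : ∃ b : ℝ, b = ε1 ^ 2 / (16 * CZ θ ^ 2) := ⟨_, rfl⟩
  have hb : 0 < b := by rw [hbdef]; positivity
  obtain ⟨b', hb'def⟩ : ∃ b' : ℝ, b' = b * δ / (2 * c1) := ⟨_, rfl⟩
  have hb' : 0 < b' := by rw [hb'def]; positivity
  obtain ⟨c, hcdef⟩ : ∃ c : ℝ, c = 48 * θ ^ 2 * c1 ^ 2 + 2 * c1 / δ + 32 * c1 + c1 * Real.exp b :=
    ⟨_, rfl⟩
  have q1 : 0 < 48 * θ ^ 2 * c1 ^ 2 := by positivity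
  have q2 : 0 < 2 * c1 / δ := by positivity
  have q3 : 0 < 32 * c1 := by positivity
  have q4 : 0 < c1 * Real.exp b := by positivity
  obtain ⟨n0, hn0⟩ := F0_asym α c b' η hα hb' hη
  refine ⟨n0, fun V _ _ K h hP hn hh Γ hΓ hΓl r v hr hv hδv => ?_⟩
  obtain ⟨hn1, hcT, hexp⟩ := hn0 (Fintype.card V) hn
  obtain ⟨hx1, hT1, hxT, hxT2, hxh, hL1⟩ := F0_num (Fintype.card V) α hα hα' hn1
  obtain ⟨n, hndef⟩ : ∃ n : ℕ, n = Fintype.card V := ⟨_, rfl⟩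
  obtain ⟨L, hLdef⟩ : ∃ L : ℕ, L = Nat.sqrt (Fintype.card V) := ⟨_, rfl⟩
  obtain ⟨x, hxdef⟩ : ∃ x : ℝ, x = (Fintype.card V : ℝ) ^ (1 / 2 - α / 8) := ⟨_, rfl⟩
  obtain ⟨T, hTdef⟩ : ∃ T : ℝ, T = (Fintype.card V : ℝ) ^ (α / 8) := ⟨_, rfl⟩
  rw [← hxdef] at hx1 hxT hxT2 hxh hδv
  rw [← hTdef] at hT1 hxT hxT2 hcT hexp
  rw [← hLdef] at hxT hL1 hr hΓl
  rw [← hLdef]
  rw [← hndef] at hn1 hexp hxT2
  have hn1' : (1 : ℝ) ≤ n := by exact_mod_cast hn1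
  have hhx : (h : ℝ) ≤ x := hh.trans hxh
  have hx0 : 0 < x := by linarith
  have hT0 : 0 < T := by linarith
  have hL0 : (0 : ℝ) < L := by linarith
  -- a vertex
  have hcard : 0 < Fintype.card V := by rw [← hndef]; omega
  obtain ⟨o⟩ : Nonempty V := Fintype.card_pos_iff.1 hcard
  -- the truncation
  obtain ⟨U, hUdef⟩ : ∃ U : ℕ, U = ⌈32 * θ ^ 2 * x⌉₊ := ⟨_, rfl⟩
  have hU1 : 32 * θ ^ 2 * x ≤ (U : ℝ) := by rw [hUdef]; exact Nat.le_ceil _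
  have hU2 : (U : ℝ) ≤ 32 * θ ^ 2 * x + 1 := by
    rw [hUdef]; exact (Nat.ceil_lt_add_one (by positivity)).le
  have hD1 : (U : ℝ) + 4 * h + 1 ≤ c1 * x := by
    rw [hc1def]; exact F0_a θ x U h hx1 hhx hU2
  -- x T bounds
  have hxc : ∀ s : ℝ, 0 ≤ s → s ≤ c → s * x ≤ 2 * L := by
    intro s hs0 hs
    calc s * x ≤ T * x := by gcongr; exact hs.trans hcT
      _ = x * T := by ring
      _ ≤ 2 * L := hxT
  have hxL : x ≤ 2 * L := by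
    calc x = x * 1 := by ring
      _ ≤ x * T := by gcongr
      _ ≤ 2 * L := hxT
  have hc1L : c1 * x ≤ δ * L := by
    have := hxc (2 * c1 / δ) q2.le (by rw [hcdef]; linarith)
    have h2 : 2 * c1 / δ * x = 2 * (c1 * x) / δ := by ring
    rw [h2, div_le_iff₀ hδ] at this
    linarith
  have hc32 : 32 * c1 * x ≤ 2 * L := hxc _ q3.le (by rw [hcdef]; linarith)
  have h48 : 48 * θ ^ 2 * ((U : ℝ) + 4 * h + 1) ^ 2 ≤ (n : ℝ) := by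
    refine F0_b θ c1 x T _ _ hT1 (by positivity) hD1 (le_trans ?_ hcT) hxT2
    rw [hcdef]; linarith
  -- the good multiple
  have hvx : (δ0 : ℝ) * v ≤ 2 * x := by exact_mod_cast hδv
  have hδ01 : (1 : ℝ) ≤ δ0 := by
    rw [hδ0def]; exact_mod_cast Nat.factorial_pos Mc
  have hvx' : (v : ℝ) ≤ 2 * x := by
    have : (v : ℝ) ≤ δ0 * v := le_mul_of_one_le_left (Nat.cast_nonneg v) hδ01
    linarith
  have hsum := hk V K θ h hP o U v Mc hv (F0_d θ x v U hvx' hU1) (by linarith)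
    (by rw [← hndef]; exact h48)
  obtain ⟨j, hj1, hj2, hj3⟩ := F0_pick Mc hMc1 _ _ hsum
  rw [← hκ0def] at hj3
  obtain ⟨m, hm1, hm2⟩ := F0_ratio Mc j hj1 hj2
  rw [← hδ0def] at hm1 hm2
  obtain ⟨g, hgdef⟩ : ∃ g : ℕ, g = j * v := ⟨_, rfl⟩
  rw [← hgdef] at hj3
  have hg1 : 1 ≤ g := by rw [hgdef]; exact Nat.mul_pos hj1 hv
  have hmg : m * g = δ0 * v := by rw [hgdef, ← hm1]; ring
  have hκ : 0 < kap K o (2 * h) g U := lt_of_lt_of_le hκ0 hj3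
  -- N0
  have hh1 : (1 : ℝ) ≤ h := by exact_mod_cast hP.h_pos
  obtain ⟨D, hDdef⟩ : ∃ D : ℝ, D = ((4 * h + U : ℕ) : ℝ) := ⟨_, rfl⟩
  have hDc : D ≤ c1 * x := by
    rw [hDdef]; push_cast; linarith
  have hD0 : 0 < D := by
    rw [hDdef]; push_cast
    have : (0 : ℝ) ≤ U := Nat.cast_nonneg U
    linarith
  obtain ⟨N0, hN0def⟩ : ∃ N0 : ℕ, N0 = ⌊δ * L / D⌋₊ := ⟨_, rfl⟩
  have hN0a : D * N0 ≤ δ * L := by
    have : (N0 : ℝ) ≤ δ * L / D := by rw [hN0def]; exact Nat.floor_le (by positivity)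
    rw [le_div_iff₀ hD0] at this
    linarith
  have hN0b : 1 ≤ N0 := by
    rw [hN0def]
    apply Nat.one_le_iff_ne_zero.2
    intro h0
    have := Nat.lt_one_of_floor_lt_one (a := δ * L / D) (by omega)
    rw [div_lt_one hD0] at this
    linarith
  have hN0c : δ * T / (2 * c1) - 1 ≤ N0 := by
    have e1 : δ * L / D < N0 + 1 := by rw [hN0def]; exact Nat.lt_floor_add_one _
    have e2 : δ * T / (2 * c1) ≤ δ * L / D := by
      rw [div_le_div_iff₀ (by positivity) hD0]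
      calc δ * T * D ≤ δ * T * (c1 * x) := by gcongr
        _ = δ * c1 * (x * T) := by ring
        _ ≤ δ * c1 * (2 * L) := by gcongr
        _ = δ * L * (2 * c1) := by ring
    linarith
  -- the error
  obtain ⟨X, hXdef⟩ : ∃ X : ℝ, X = (Fintype.card V : ℝ) * D
      * Real.exp (-(ε1 ^ 2 * N0 / (16 * CZ θ ^ 2))) := ⟨_, rfl⟩
  have hX : X ≤ η := by
    have e0 : x ≤ n := F0_c x T n hx1 hT1 hxT2
    have e1 : Real.exp (-(ε1 ^ 2 * N0 / (16 * CZ θ ^ 2))) ≤ Real.exp b * Real.exp (-(b' * T)) := by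
      rw [← Real.exp_add]
      apply Real.exp_le_exp.2
      have : ε1 ^ 2 * N0 / (16 * CZ θ ^ 2) = b * N0 := by rw [hbdef]; ring
      rw [this]
      have e3 : b * (δ * T / (2 * c1) - 1) ≤ b * N0 := by gcongr
      have e4 : b * (δ * T / (2 * c1) - 1) = b' * T - b := by rw [hb'def]; ring
      linarith
    calc X = (n : ℝ) * D * Real.exp (-(ε1 ^ 2 * N0 / (16 * CZ θ ^ 2))) := by rw [hXdef, hndef]
      _ ≤ (n : ℝ) * (c1 * n) * (Real.exp b * Real.exp (-(b' * T))) := by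
          gcongr
          exact hDc.trans (by gcongr)
      _ = (c1 * Real.exp b) * (n : ℝ) ^ 2 * Real.exp (-(b' * T)) := by ring
      _ ≤ c * (n : ℝ) ^ 2 * Real.exp (-(b' * T)) := by
          gcongr
          rw [hcdef]; linarith
      _ ≤ η := hexp
  obtain ⟨E, hEdef⟩ : ∃ E : ℝ, E = C * (D * N0 + ε1 * L + X) := ⟨_, rfl⟩
  have hE : E ≤ ε / δ0 * L * κ0 := by
    rw [hEdef]
    exact F0_f C η L _ ε1 X δ ε δ0 κ0 hC hδ0 hη hηdef hL1 hδη hε1η hN0a hX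
  have hEκ : E / kap K o (2 * h) g U ≤ ε / δ0 * L := by
    rw [div_le_iff₀ hκ]
    calc E ≤ ε / δ0 * L * κ0 := hE
      _ ≤ ε / δ0 * L * kap K o (2 * h) g U := by gcongr
  -- one shift
  have hstep : ∀ i < m, |Phi K Γ (r + i * g) - Phi K Γ (r + (i + 1) * g)| ≤ ε / δ0 * L := by
    intro i hi
    have hri : (((r + i * g : ℕ) : ℝ) + g) ≤ (|A| + 4) * L := by
      have s1 : r + i * g + g ≤ r + δ0 * v := by
        have : (i + 1) * g ≤ m * g := Nat.mul_le_mul_right g hi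
        rw [hmg] at this
        linarith
      have s2 : ((r + i * g : ℕ) : ℝ) + g ≤ (r : ℝ) + δ0 * v := by exact_mod_cast s1
      exact F0_g A L r _ hL0.le hr (by linarith)
    have hΓA : (Γ.length : ℝ) ≤ (|A| + 4) * Nat.sqrt (Fintype.card V) := by
      rw [← hLdef]; exact F0_g A L _ _ hL0.le hΓl (by linarith)
    have hcond1 : 2 * h ≤ (4 * h + U) * N0 := by
      calc 2 * h ≤ 4 * h + U := by omega
        _ = (4 * h + U) * 1 := by ring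
        _ ≤ (4 * h + U) * N0 := Nat.mul_le_mul_left _ hN0b
    have hcond2 : 4 * (2 * h + (4 * h + U) * N0 + 2 * h + 2 * U) ≤ Nat.sqrt (Fintype.card V) := by
      rw [← hLdef]
      have : (4 : ℝ) * (2 * h + D * N0 + 2 * h + 2 * U) ≤ L :=
        F0_e h U D c1 x L δ _ (by rw [hDdef]; push_cast; ring) hDc hc32 hδ8 hL0.le hN0a
          (by linarith)
      rw [hDdef] at this
      exact_mod_cast this
    have key : ∀ N : ℕ, kap K o (2 * h) g U * PhiN K Γ N (r + i * g)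
          ≤ kap K o (2 * h) g U * PhiN K Γ (N + U) (r + i * g + g) + E ∧
        kap K o (2 * h) g U * PhiN K Γ N (r + i * g + g)
          ≤ kap K o (2 * h) g U * PhiN K Γ N (r + i * g) + E := by
      intro N
      have := hex V K h hP o Γ hΓ hΓA (r + i * g) g (2 * h) U N0 N
        (by rw [← hLdef]; exact hri) hg1 le_rfl hcond1 hcond2 ε1 hε1 hε11
      rw [← hLdef, ← hDdef, ← hXdef, ← hEdef] at this
      exact this
    have h2 := F0_limit Γ hΓ (r + i * g) g U _ E hκ key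
    have h3 : r + (i + 1) * g = r + i * g + g := by ring
    rw [h3]
    exact h2.trans hEκ
  have hfin := F0_iter (fun s => Phi K Γ s) r g m _ hstep
  rw [hmg] at hfin
  refine hfin.trans ?_
  have hmδ : (m : ℝ) ≤ δ0 := by exact_mod_cast hm2
  calc (m : ℝ) * (ε / δ0 * L) ≤ δ0 * (ε / δ0 * L) := by gcongr
    _ = ε * L := by field_simp

end Pool.Agent.helper20.HP
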